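import Pool.Agent.Y201.LI.Stm

set_option autoImplicit false

namespace Pool.Agent.Y275.LI

open MvPolynomial

lemma aeval_scale {σ A : Type} [Fintype σ] [Field A] [Algebra ℂ A] {n : ℕ}
    {P : MvPolynomial σ ℂ} (hP : P.IsHomogeneous n) (t : A) (x : σ → A) :
    aeval (fun i => t * x i) P = t ^ n * aeval x P := by
  rw [aeval_def, aeval_def, eval₂_eq', eval₂_eq', Finset.mul_sum]
  refine Finset.sum_congr rfl fun m hm => ?_
  have h := hP.degree_eq_sum_deg_support hm
  have e : ∏ i, (t * x i) ^ m i = t ^ n * ∏ i, x i ^ m i := by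
    simp_rw [mul_pow]
    rw [Finset.prod_mul_distrib, Finset.prod_pow_eq_pow_sum]
    congr 2
    rw [h]
    exact (Finset.sum_subset (Finset.subset_univ _) (by
      intro i _ hi
      simpa using hi)).symm
  rw [e]
  ring

lemma aeval_eval {σ : Type} (x : σ → ℂ) (P : MvPolynomial σ ℂ) : aeval x P = eval x P := rfl

/-- if a polynomial over `ℂ` vanishes at all complex multiples of `x`, so do its homogeneous
components at `x` -/
lemma comp_zero {σ A : Type} [Fintype σ] [Field A] [Algebra ℂ A] (H : MvPolynomial σ ℂ)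
    (x : σ → A) (h : ∀ g : ℂ, aeval (fun i => algebraMap ℂ A g * x i) H = 0) (k : ℕ) :
    aeval x (homogeneousComponent k H) = 0 := by
  classical
  by_cases hk : H.totalDegree < k
  · rw [homogeneousComponent_eq_zero k H hk, map_zero]
  set T : Polynomial A := ∑ i ∈ Finset.range (H.totalDegree + 1),
    Polynomial.monomial i (aeval x (homogeneousComponent i H)) with hT
  have hT0 : T = 0 := by
    apply Polynomial.eq_zero_of_infinite_isRoot
    refine Set.Infinite.mono ?_ (Set.infinite_range_of_injective (algebraMap ℂ A).injective)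
    rintro _ ⟨g, rfl⟩
    rw [Set.mem_ofPred_eq, Polynomial.IsRoot.def, hT, Polynomial.eval_finsetSum]
    simp only [Polynomial.eval_monomial]
    rw [← h g]
    conv_rhs => rw [← sum_homogeneousComponent H, map_sum]
    refine Finset.sum_congr rfl fun i _ => ?_
    rw [aeval_scale (homogeneousComponent_isHomogeneous i H)]
    ring
  have h1 : T.coeff k = aeval x (homogeneousComponent k H) := by
    rw [hT, Polynomial.finsetSum_coeff]
    simp only [Polynomial.coeff_monomial]
    rw [Finset.sum_ite_eq']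
    rw [if_pos (by rw [Finset.mem_range]; omega)]
  rw [← h1, hT0, Polynomial.coeff_zero]

/-- a root on a line -/
lemma exists_on_line {σ : Type} [Fintype σ] {F : MvPolynomial σ ℂ} {d : ℕ}
    (hF : F.IsHomogeneous d) (hd : 1 ≤ d) (p y : σ → ℂ) (hp : eval p F ≠ 0) :
    ∃ b : ℂ, eval (fun i => y i - b * p i) F = 0 := by
  classical
  by_contra hcon
  push Not at hcon
  -- the values on the line
  set q : Polynomial ℂ := aeval (fun i => Polynomial.C (y i) - Polynomial.X * Polynomial.C (p i)) F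
    with hq
  have hqe : ∀ b : ℂ, q.eval b = eval (fun i => y i - b * p i) F := by
    intro b
    have : q.eval b = Polynomial.aeval b q := by rw [Polynomial.coe_aeval_eq_eval]
    rw [this, hq, MvPolynomial.comp_aeval_apply, aeval_eval]
    congr 2
    funext i
    simp only [map_sub, map_mul, Polynomial.aeval_X, Polynomial.aeval_C,
      Algebra.algebraMap_self, RingHom.id_apply]
  have hdeg : q.degree = 0 := by
    by_contra h0
    obtain ⟨b, hb⟩ := IsAlgClosed.exists_root q h0
    exact hcon b (by rw [← hqe b]; exact hb)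
  have hc : ∀ b : ℂ, eval (fun i => y i - b * p i) F = q.coeff 0 := by
    intro b
    rw [← hqe b, Polynomial.eq_C_of_degree_eq_zero hdeg]
    simp
  -- homogenize
  set Q : Polynomial ℂ := aeval (fun i => Polynomial.X * Polynomial.C (y i) - Polynomial.C (p i)) F
    with hQ
  have hQe : ∀ b : ℂ, Q.eval b = eval (fun i => b * y i - p i) F := by
    intro b
    have : Q.eval b = Polynomial.aeval b Q := by rw [Polynomial.coe_aeval_eq_eval]
    rw [this, hQ, MvPolynomial.comp_aeval_apply, aeval_eval]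
    congr 2
    funext i
    simp only [map_sub, map_mul, Polynomial.aeval_X, Polynomial.aeval_C,
      Algebra.algebraMap_self, RingHom.id_apply]
  have hQ2 : Q - Polynomial.C (q.coeff 0) * Polynomial.X ^ d = 0 := by
    apply Polynomial.eq_zero_of_infinite_isRoot
    refine Set.Infinite.mono ?_ (Set.infinite_range_of_injective
      (f := fun n : ℕ => ((n : ℂ) + 1)) (by
        intro a b hab
        simpa using hab))
    rintro _ ⟨n, rfl⟩
    have hs : ((n : ℂ) + 1) ≠ 0 := Nat.cast_add_one_ne_zero n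
    rw [Set.mem_ofPred_eq, Polynomial.IsRoot.def, Polynomial.eval_sub, Polynomial.eval_mul,
      Polynomial.eval_C, Polynomial.eval_pow, Polynomial.eval_X, hQe]
    have e : (fun i => ((n : ℂ) + 1) * y i - p i) =
        fun i => ((n : ℂ) + 1) * (y i - (1 / ((n : ℂ) + 1)) * p i) := by
      funext i
      field_simp
    have e2 : eval (fun i => ((n : ℂ) + 1) * y i - p i) F =
        ((n : ℂ) + 1) ^ d * eval (fun i => y i - (1 / ((n : ℂ) + 1)) * p i) F := by
      rw [e]
      have := aeval_scale (A := ℂ) hF ((n : ℂ) + 1)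
        (fun i => y i - (1 / ((n : ℂ) + 1)) * p i)
      exact this
    rw [e2, hc]
    ring
  have h0 : Q.eval 0 = 0 := by
    have : Q = Polynomial.C (q.coeff 0) * Polynomial.X ^ d := sub_eq_zero.1 hQ2
    rw [this]
    have : (0 : ℂ) ^ d = 0 := zero_pow (by omega)
    simp [this]
  rw [hQe] at h0
  have e3 : (fun i => (0 : ℂ) * y i - p i) = fun i => (-1 : ℂ) * p i := by
    funext i
    ring
  have e4 := aeval_scale (A := ℂ) hF (-1) p
  rw [aeval_eval, aeval_eval] at e4
  rw [e3, e4] at h0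
  have h1 : ((-1 : ℂ)) ^ d ≠ 0 := pow_ne_zero _ (by norm_num)
  rcases mul_eq_zero.1 h0 with h | h
  · exact h1 h
  · exact hp h

theorem ind_main (r d : ℕ) (F : MvPolynomial (Fin r) ℂ) (hF : F.IsHomogeneous d) (hd : 1 ≤ d)
    (hF0 : F ≠ 0)
    (M Ω : Type) [Field M] [Field Ω] [Algebra ℂ M] [Algebra M Ω] [Algebra ℂ Ω]
    [IsScalarTower ℂ M Ω] (x : Fin r → M)
    (hdiv : ∀ (e : ℕ) (H : MvPolynomial (Fin r) ℂ), H.IsHomogeneous e → aeval x H = 0 → F ∣ H)
    (v₁ v₂ v₃ : Fin r → Ω) (γ β₁ β₂ : Ω)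
    (hind : AlgebraicIndependent M (Sum.elim (Sum.elim v₁ v₂) ![γ, β₁, β₂]))
    (hv : ∀ i, v₃ i = γ * algebraMap M Ω (x i) + β₁ * v₁ i + β₂ * v₂ i) :
    AlgebraicIndependent ℂ (Sum.elim (Sum.elim v₁ v₂) (Sum.elim v₃ ![β₂])) := by
  classical
  rw [algebraicIndependent_iff]
  intro R hR
  -- the universal substitution
  let f : (Fin r ⊕ Fin r) ⊕ (Fin r ⊕ Fin 1) → MvPolynomial ((Fin r ⊕ Fin r) ⊕ Fin 3) M :=
    Sum.elim (Sum.elim (fun j => X (Sum.inl (Sum.inl j))) (fun j => X (Sum.inl (Sum.inr j))))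
      (Sum.elim (fun j => X (Sum.inr 0) * C (x j) + X (Sum.inr 1) * X (Sum.inl (Sum.inl j)) +
        X (Sum.inr 2) * X (Sum.inl (Sum.inr j))) (fun _ => X (Sum.inr 2)))
  have hS : aeval f R = 0 := by
    have h1 := (algebraicIndependent_iff.1 hind) (aeval f R)
    apply h1
    have h2 : (aeval (Sum.elim (Sum.elim v₁ v₂) ![γ, β₁, β₂]) :
        MvPolynomial ((Fin r ⊕ Fin r) ⊕ Fin 3) M →ₐ[M] Ω) (aeval f R) =
        aeval (Sum.elim (Sum.elim v₁ v₂) (Sum.elim v₃ ![β₂])) R := by
      have h3 := MvPolynomial.comp_aeval_apply (f := f)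
        ((aeval (Sum.elim (Sum.elim v₁ v₂) ![γ, β₁, β₂]) :
          MvPolynomial ((Fin r ⊕ Fin r) ⊕ Fin 3) M →ₐ[M] Ω).restrictScalars ℂ) R
      rw [AlgHom.restrictScalars_apply] at h3
      rw [h3]
      congr 2
      funext i
      rcases i with (j | j) | (j | j)
      · simp [f]
      · simp [f]
      · simp [f, hv]
      · have hj : j = 0 := Subsingleton.elim _ _
        subst hj
        simp [f]
    rw [h2, hR]
  -- complex specializations
  have hsp : ∀ (p₁ p₂ : Fin r → ℂ) (g b₁ b₂ : ℂ),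
      aeval (Sum.elim (Sum.elim (fun j => algebraMap ℂ M (p₁ j)) (fun j => algebraMap ℂ M (p₂ j)))
        (Sum.elim (fun j => algebraMap ℂ M g * x j + algebraMap ℂ M (b₁ * p₁ j + b₂ * p₂ j))
          (fun _ : Fin 1 => algebraMap ℂ M b₂))) R = 0 := by
    intro p₁ p₂ g b₁ b₂
    let v : (Fin r ⊕ Fin r) ⊕ Fin 3 → M :=
      Sum.elim (Sum.elim (fun j => algebraMap ℂ M (p₁ j)) (fun j => algebraMap ℂ M (p₂ j)))
        ![algebraMap ℂ M g, algebraMap ℂ M b₁, algebraMap ℂ M b₂]
    have h3 := MvPolynomial.comp_aeval_apply (f := f)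
      ((aeval v : MvPolynomial ((Fin r ⊕ Fin r) ⊕ Fin 3) M →ₐ[M] M).restrictScalars ℂ) R
    rw [AlgHom.restrictScalars_apply, hS, map_zero] at h3
    rw [h3]
    congr 2
    funext i
    rcases i with (j | j) | (j | j)
    · simp [f, v]
    · simp [f, v]
    · simp [f, v]
      ring
    · simp [f, v]
  -- vanishing on the hypersurface
  have hvan : ∀ (p₁ p₂ ξ : Fin r → ℂ) (b₁ b₂ : ℂ), eval ξ F = 0 →
      eval (Sum.elim (Sum.elim p₁ p₂) (Sum.elim (fun j => ξ j + (b₁ * p₁ j + b₂ * p₂ j))
        (fun _ : Fin 1 => b₂))) R = 0 := by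
    intro p₁ p₂ ξ b₁ b₂ hξ
    let h : (Fin r ⊕ Fin r) ⊕ (Fin r ⊕ Fin 1) → MvPolynomial (Fin r) ℂ :=
      Sum.elim (Sum.elim (fun j => C (p₁ j)) (fun j => C (p₂ j)))
        (Sum.elim (fun j => X j + C (b₁ * p₁ j + b₂ * p₂ j)) (fun _ => C b₂))
    have hk : ∀ k, aeval x (homogeneousComponent k (aeval h R)) = 0 := by
      intro k
      refine comp_zero _ x ?_ k
      intro g
      rw [MvPolynomial.comp_aeval_apply, ← hsp p₁ p₂ g b₁ b₂]
      congr 2
      funext i
      rcases i with (j | j) | (j | j)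
      · simp [h]
      · simp [h]
      · simp [h]
      · simp [h]
    have hdvd : F ∣ aeval h R := by
      rw [← sum_homogeneousComponent (aeval h R)]
      exact Finset.dvd_sum fun k _ => hdiv k _ (homogeneousComponent_isHomogeneous k _) (hk k)
    obtain ⟨Q, hQ⟩ := hdvd
    have h4 : aeval ξ (aeval h R) = 0 := by
      rw [hQ, map_mul, aeval_eval, hξ, zero_mul]
    rw [MvPolynomial.comp_aeval_apply, aeval_eval] at h4
    rw [← h4]
    congr 2
    funext i
    rcases i with (j | j) | (j | j)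
    · simp [h]
    · simp [h]
    · simp [h]
    · simp [h]
  -- all complex points
  have hall : R * rename (fun j => Sum.inl (Sum.inl j)) F = 0 := by
    apply MvPolynomial.funext
    intro z
    rw [map_mul, map_zero, eval_rename]
    by_cases hp : eval (z ∘ fun j => Sum.inl (Sum.inl j)) F = 0
    · rw [hp, mul_zero]
    · obtain ⟨b, hb⟩ := exists_on_line hF hd (z ∘ fun j => Sum.inl (Sum.inl j))
        (fun j => z (Sum.inr (Sum.inl j)) - z (Sum.inr (Sum.inr 0)) * z (Sum.inl (Sum.inr j))) hp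
      have h5 := hvan (fun j => z (Sum.inl (Sum.inl j))) (fun j => z (Sum.inl (Sum.inr j))) _ b
        (z (Sum.inr (Sum.inr 0))) hb
      have e : (Sum.elim (Sum.elim (fun j => z (Sum.inl (Sum.inl j)))
          (fun j => z (Sum.inl (Sum.inr j)))) (Sum.elim (fun j =>
            (z (Sum.inr (Sum.inl j)) - z (Sum.inr (Sum.inr 0)) * z (Sum.inl (Sum.inr j)) -
              b * (z ∘ fun j => Sum.inl (Sum.inl j)) j) +
            (b * z (Sum.inl (Sum.inl j)) + z (Sum.inr (Sum.inr 0)) * z (Sum.inl (Sum.inr j))))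
          (fun _ : Fin 1 => z (Sum.inr (Sum.inr 0))))) = z := by
        funext i
        rcases i with (j | j) | (j | j)
        · rfl
        · rfl
        · simp only [Sum.elim_inr, Sum.elim_inl, Function.comp_apply]
          ring
        · have hj : j = 0 := Subsingleton.elim _ _
          subst hj
          rfl
      rw [e] at h5
      rw [h5, zero_mul]
  rcases mul_eq_zero.1 hall with h | h
  · exact h
  · exfalso
    apply hF0
    exact (rename_injective _ (Sum.inl_injective.comp Sum.inl_injective)) (by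
      rw [map_zero]
      exact h)

/-- a generic plane through the generic point of a hypersurface is generic -/
theorem ind : Pool.Agent.Y201.LI.S_IND := by
  intro r d F hF hd hF0 M Ω _ _ _ _ _ _ x _ hdiv v₁ v₂ v₃ γ β₁ β₂ hind hv
  exact ind_main r d F hF hd hF0 M Ω x hdiv v₁ v₂ v₃ γ β₁ β₂ hind hv

end Pool.Agent.Y275.LI
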